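import Mathlib
import Pool.Agent.LipPeak.Defs
import Pool.Agent.LipPeak.Diverge

/-!
# Peak sets for the Lipschitz class `A_α` need not satisfy `∫ dist(·, E)^{-α} < ∞`

The witness is `E = {1} ∪ ⋃_k {(1 + i y)/(1 - i y) : y = P_k + j ℓ_k, 0 ≤ j < N_k}` with
`P_k = 2^{-(k+1)}`, `ℓ_k = A (k+1)^{1/α} P_k^{1/α}`, `N_k = ⌊P_k / (2 ℓ_k)⌋`.
-/

set_option autoImplicit false

namespace Pool.Agent.Results.MP_84bbc2_an.DistNotIntegrable

open Pool.Agent.LipPeak MeasureTheory

/-- **Negative answer to Q1, for every `α` in `(0,1)`.** There is a (countable) peak set `E` for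
`A_α` such that the integral of `dist(·, E)^{-α}` over the unit circle is infinite. -/
theorem result (α : ℝ) (h0 : 0 < α) (h1 : α < 1) : ∃ E : Set ℂ, IsPeakSet α E ∧ E.Countable ∧
    ∫⁻ θ in Set.Ioc (-Real.pi) Real.pi,
      ENNReal.ofReal (Metric.infDist (Complex.exp (θ * Complex.I)) E ^ (-α)) = ⊤ := by
  have := nonempty_Idx h0 h1
  exact ⟨(conf h0 h1).E, (conf h0 h1).isPeakSet h0 h1, (Set.countable_range _).insert _,
    diverge h0 h1⟩

end Pool.Agent.Results.MP_84bbc2_an.DistNotIntegrable
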